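import Pool.Agent.Lib.MP_37c7bf_co_Poly.Machine
import Pool.Agent.Lib.MP_37c7bf_co_h77dm.Defs

/-!
# The Turing machine for the clusters and the kernel data

The relation `InC` is the least fixed point of a first-order definable operator, and `Acc` is
first-order definable from it, so a deterministic polynomial-time Turing machine decides `Acc`.
-/

namespace Pool.Agent.Lib.MP_37c7bf_co_h26dm

open Pool.Agent.Lib.PolyTM Pool.Agent.Lib.FOLFP Pool.Agent.Lib.MP_37c7bf_co_Poly Function Turing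

open Pool.Agent.Lib.MP_37c7bf_co_h77dm (InC Acc Data)

/-! ### The notions for an arbitrary relation -/

section

variable {V : Type*}

/-- `Three` for a relation. -/
def ThreeR (A : V → V → Prop) (S : V → Prop) (v : V) : Prop :=
  ∃ a : Fin 3 → V, Injective a ∧ ∀ i, S (a i) ∧ A v (a i)

/-- `Glue` for a relation. -/
def GlR (A : V → V → Prop) (S T : V → Prop) : Prop :=
  ∃ (j : Fin 4) (x : Fin (j : ℕ) → V) (a b : Fin ((4 - (j : ℕ)).choose 2) → V),
    Injective x ∧ (∀ l, S (x l) ∧ T (x l)) ∧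
    (∀ i, S (a i) ∧ T (b i) ∧ A (a i) (b i)) ∧
    (∀ i l, a i ≠ x l ∧ b i ≠ x l) ∧ (∀ i i', a i ≠ b i') ∧
    (∀ i i', i ≠ i' → ¬ (a i = a i' ∧ b i = b i')) ∧
    (∀ i i' i'', i ≠ i' → i ≠ i'' → i' ≠ i'' → ¬ (a i = a i' ∧ a i = a i'')) ∧
    ∀ i i' i'', i ≠ i' → i ≠ i'' → i' ≠ i'' → ¬ (b i = b i' ∧ b i = b i'')

/-- `Step` for a relation. -/
def StR (A : V → V → Prop) (R : (Fin 14 → V) → V → Prop) (s : Fin 14 → V) (v : V) : Prop :=
  SeedR A s ∧ ((∃ i, v = s i) ∨ ThreeR A (R s) v ∨ ∃ t, GlR A (R s) (R t) ∧ R t v)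

/-- `Data` for a relation. -/
def DataR (A : V → V → Prop) (cl : (Fin 14 → V) → V → Prop) (k : ℕ) {m : ℕ}
    (H : SimpleGraph (Fin m)) : Prop :=
  ∃ (c : Fin k → Fin 14 → V) (w : Fin m → V),
    (∀ i, SeedR A (c i)) ∧ Injective w ∧
    (∀ v, (∃ l, w l = v) ∨ ∃ i, cl (c i) v) ∧
    (∀ i, ∃ a : Fin 3 → Fin m, Injective a ∧ ∀ l, cl (c i) (w (a l))) ∧
    (∀ i j, (∃ v, cl (c i) v ∧ ¬ cl (c j) v) →
      ∀ v, cl (c i) v → cl (c j) v → ∃ l, w l = v) ∧
    (∀ u v, A u v → (∃ i, cl (c i) u ∧ cl (c i) v) ∨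
      ((∃ l, w l = u) ∧ ∃ l, w l = v)) ∧
    ∀ a b : Fin m, H.Adj a b ↔
      a ≠ b ∧ (A (w a) (w b) ∨ ∃ i, cl (c i) (w a) ∧ cl (c i) (w b))

/-- `Acc` for a relation. -/
def AccR (A : V → V → Prop) (cl : (Fin 14 → V) → V → Prop)
    (gr : ∀ m, SimpleGraph (Fin m) → Prop) (k K : ℕ) : Prop :=
  ∃ (m : Fin (K + 1)) (H : SimpleGraph (Fin m)), gr m H ∧ DataR A cl k H

theorem stR_iff (G : SimpleGraph V) (M : (Fin 14 → V) → V → Prop) (s : Fin 14 → V) (v : V) :
    StR G.Adj M s v ↔ MP_37c7bf_co_h77dm.Step G M s v := Iff.rfl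

theorem accR_iff (G : SimpleGraph V) (gr : ∀ m, SimpleGraph (Fin m) → Prop) (k K : ℕ) :
    AccR G.Adj (InC G) gr k K ↔ Acc gr k K G := Iff.rfl

end

/-! ### Definability -/

variable {C : ℕ → Arr (Option Unit) → Prop} {κ : Type} [DecidableEq κ]

theorem td_three (f : Fin 14 → κ) (x : κ) :
    TDef ix C κ (fun N a e => ThreeR (TDef.Adj N a) (tcl N a fun i => e (f i)) (e x)) := by
  have h : TDef ix C (κ ⊕ Fin 3) (fun N a e => (Injective fun i : Fin 3 => e (.inr i)) ∧
      ∀ i : Fin 3, tcl N a (fun z => e (.inl (f z))) (e (.inr i)) ∧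
        TDef.Adj N a (e (.inl x)) (e (.inr i))) :=
    (td_inj _).and (TDef.forall' fun i => (td_cl _ _).and (TDef.adj _ _))
  exact h.ex

theorem td_gl (f g : Fin 14 → κ) :
    TDef ix C κ (fun N a e => GlR (TDef.Adj N a) (tcl N a fun i => e (f i))
      (tcl N a fun i => e (g i))) := by
  refine TDef.exists' fun c => ?_
  set m := (4 - (c : ℕ)).choose 2 with hm
  have h : TDef ix C (((κ ⊕ Fin c) ⊕ Fin m) ⊕ Fin m) (fun N A e =>
      (Injective fun i : Fin c => e (.inl (.inl (.inr i)))) ∧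
      (∀ l : Fin c, tcl N A (fun z => e (.inl (.inl (.inl (f z))))) (e (.inl (.inl (.inr l)))) ∧
          tcl N A (fun z => e (.inl (.inl (.inl (g z))))) (e (.inl (.inl (.inr l))))) ∧
      (∀ i : Fin m, tcl N A (fun z => e (.inl (.inl (.inl (f z))))) (e (.inl (.inr i))) ∧
        tcl N A (fun z => e (.inl (.inl (.inl (g z))))) (e (.inr i)) ∧
        TDef.Adj N A (e (.inl (.inr i))) (e (.inr i))) ∧
      (∀ (i : Fin m) (l : Fin c), e (.inl (.inr i)) ≠ e (.inl (.inl (.inr l))) ∧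
        e (.inr i) ≠ e (.inl (.inl (.inr l)))) ∧
      (∀ i i' : Fin m, e (.inl (.inr i)) ≠ e (.inr i')) ∧
      (∀ i i' : Fin m, i ≠ i' →
        ¬ (e (.inl (.inr i)) = e (.inl (.inr i')) ∧ e (.inr i) = e (.inr i'))) ∧
      (∀ i i' i'' : Fin m, i ≠ i' → i ≠ i'' → i' ≠ i'' →
        ¬ (e (.inl (.inr i)) = e (.inl (.inr i')) ∧ e (.inl (.inr i)) = e (.inl (.inr i'')))) ∧
      (∀ i i' i'' : Fin m, i ≠ i' → i ≠ i'' → i' ≠ i'' →
        ¬ (e (.inr i) = e (.inr i') ∧ e (.inr i) = e (.inr i'')))) := by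
    refine (td_inj _).and ((TDef.forall' fun i => (td_cl _ _).and (td_cl _ _)).and
      ((TDef.forall' fun i => (td_cl _ _).and ((td_cl _ _).and (TDef.adj _ _))).and
      ((TDef.forall' fun i => TDef.forall' fun l => (TDef.eq _ _).not.and (TDef.eq _ _).not).and
      ((TDef.forall' fun i => TDef.forall' fun i' => (TDef.eq _ _).not).and
      ((TDef.forall' fun i => TDef.forall' fun i' => (TDef.const _).imp
        ((TDef.eq _ _).and (TDef.eq _ _)).not).and
      ((TDef.forall' fun i => TDef.forall' fun i' => TDef.forall' fun i'' =>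
        (TDef.const _).imp ((TDef.const _).imp ((TDef.const _).imp
          ((TDef.eq _ _).and (TDef.eq _ _)).not))).and
      (TDef.forall' fun i => TDef.forall' fun i' => TDef.forall' fun i'' =>
        (TDef.const _).imp ((TDef.const _).imp ((TDef.const _).imp
          ((TDef.eq _ _).and (TDef.eq _ _)).not)))))))))
  exact h.ex.ex.ex

theorem td_st (f : Fin 14 → κ) (x : κ) :
    TDef ix C κ (fun N a e => StR (TDef.Adj N a) (tcl N a) (fun i => e (f i)) (e x)) := by
  have h3 : TDef ix C (κ ⊕ Fin 14) (fun N a e =>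
      GlR (TDef.Adj N a) (tcl N a fun i => e (.inl (f i))) (tcl N a fun i => e (.inr i)) ∧
      tcl N a (fun i => e (.inr i)) (e (.inl x))) :=
    (td_gl _ _).and (td_cl _ _)
  exact (td_seed f).and ((TDef.exists' fun i => TDef.eq x (f i)).or ((td_three f x).or h3.ex))

/-- Quantification over the seeds and the vertices of the kernel. -/
theorem td_exc (k : ℕ) {R : ∀ N, Arr (Option Unit) → (κ → Fin N) → (Fin k → Fin 14 → Fin N) → Prop}
    (h : TDef ix C (κ ⊕ (Fin k × Fin 14)) fun N a e =>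
      R N a (fun x => e (.inl x)) fun i z => e (.inr (i, z))) :
    TDef ix C κ (fun N a e => ∃ c : Fin k → Fin 14 → Fin N, R N a e c) := by
  refine h.ex.congr ?_
  intro N a e _
  constructor
  · rintro ⟨t, ht⟩
    exact ⟨fun i z => t (i, z), ht⟩
  · rintro ⟨c, hc⟩
    exact ⟨fun p => c p.1 p.2, hc⟩

theorem td_data (k : ℕ) {m : ℕ} (H : SimpleGraph (Fin m)) :
    TDef ix C κ (fun N a _ => DataR (TDef.Adj N a) (tcl N a) k H) := by
  unfold DataR
  refine td_exc k ?_
  set lam := κ ⊕ (Fin k × Fin 14) with hlam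
  have h0 : TDef ix C (lam ⊕ Fin m) (fun N a e =>
      ∀ i : Fin k, SeedR (TDef.Adj N a) fun z => e (.inl (.inr (i, z)))) :=
    TDef.forall' fun i => td_seed _
  have h1 : TDef ix C (lam ⊕ Fin m) (fun N a e => ∀ v : Fin N,
      (∃ l : Fin m, e (.inr l) = v) ∨ ∃ i : Fin k, tcl N a (fun z => e (.inl (.inr (i, z)))) v) := by
    have h : TDef ix C ((lam ⊕ Fin m) ⊕ Unit) (fun N a e =>
        (∃ l : Fin m, e (.inl (.inr l)) = e (.inr ())) ∨
          ∃ i : Fin k, tcl N a (fun z => e (.inl (.inl (.inr (i, z))))) (e (.inr ()))) :=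
      (TDef.exists' fun l => TDef.eq _ _).or (TDef.exists' fun i => td_cl _ _)
    exact h.all1
  have h2 : TDef ix C (lam ⊕ Fin m) (fun N a e => ∀ i : Fin k, ∃ b : Fin 3 → Fin m,
      Injective b ∧ ∀ l, tcl N a (fun z => e (.inl (.inr (i, z)))) (e (.inr (b l)))) :=
    TDef.forall' fun i => TDef.exists' fun b => (TDef.const _).and
      (TDef.forall' fun l => td_cl _ _)
  have h3 : TDef ix C (lam ⊕ Fin m) (fun N a e => ∀ i j : Fin k,
      (∃ v : Fin N, tcl N a (fun z => e (.inl (.inr (i, z)))) v ∧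
        ¬ tcl N a (fun z => e (.inl (.inr (j, z)))) v) →
      ∀ v : Fin N, tcl N a (fun z => e (.inl (.inr (i, z)))) v →
        tcl N a (fun z => e (.inl (.inr (j, z)))) v → ∃ l : Fin m, e (.inr l) = v) := by
    refine TDef.forall' fun i => TDef.forall' fun j => ?_
    have ha : TDef ix C ((lam ⊕ Fin m) ⊕ Unit) (fun N a e =>
        tcl N a (fun z => e (.inl (.inl (.inr (i, z))))) (e (.inr ())) ∧
          ¬ tcl N a (fun z => e (.inl (.inl (.inr (j, z))))) (e (.inr ()))) :=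
      (td_cl _ _).and (td_cl _ _).not
    have hb : TDef ix C ((lam ⊕ Fin m) ⊕ Unit) (fun N a e =>
        tcl N a (fun z => e (.inl (.inl (.inr (i, z))))) (e (.inr ())) →
          tcl N a (fun z => e (.inl (.inl (.inr (j, z))))) (e (.inr ())) →
          ∃ l : Fin m, e (.inl (.inr l)) = e (.inr ())) :=
      (td_cl _ _).imp ((td_cl _ _).imp (TDef.exists' fun l => TDef.eq _ _))
    exact ha.ex1.imp hb.all1
  have h4 : TDef ix C (lam ⊕ Fin m) (fun N a e => ∀ u v : Fin N, TDef.Adj N a u v →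
      (∃ i : Fin k, tcl N a (fun z => e (.inl (.inr (i, z)))) u ∧
        tcl N a (fun z => e (.inl (.inr (i, z)))) v) ∨
      ((∃ l : Fin m, e (.inr l) = u) ∧ ∃ l : Fin m, e (.inr l) = v)) := by
    have h : TDef ix C (((lam ⊕ Fin m) ⊕ Unit) ⊕ Unit) (fun N a e =>
        TDef.Adj N a (e (.inl (.inr ()))) (e (.inr ())) →
        (∃ i : Fin k, tcl N a (fun z => e (.inl (.inl (.inl (.inr (i, z)))))) (e (.inl (.inr ()))) ∧
          tcl N a (fun z => e (.inl (.inl (.inl (.inr (i, z)))))) (e (.inr ()))) ∨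
        ((∃ l : Fin m, e (.inl (.inl (.inr l))) = e (.inl (.inr ()))) ∧
          ∃ l : Fin m, e (.inl (.inl (.inr l))) = e (.inr ()))) :=
      (TDef.adj _ _).imp ((TDef.exists' fun i => (td_cl _ _).and (td_cl _ _)).or
        ((TDef.exists' fun l => TDef.eq _ _).and (TDef.exists' fun l => TDef.eq _ _)))
    exact h.all1.all1
  have h5 : TDef ix C (lam ⊕ Fin m) (fun N a e => ∀ x y : Fin m, H.Adj x y ↔
      x ≠ y ∧ (TDef.Adj N a (e (.inr x)) (e (.inr y)) ∨
        ∃ i : Fin k, tcl N a (fun z => e (.inl (.inr (i, z)))) (e (.inr x)) ∧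
          tcl N a (fun z => e (.inl (.inr (i, z)))) (e (.inr y)))) :=
    TDef.forall' fun x => TDef.forall' fun y => (TDef.const _).iff ((TDef.const _).and
      ((TDef.adj _ _).or (TDef.exists' fun i => (td_cl _ _).and (td_cl _ _))))
  exact TDef.ex (h0.and ((td_inj fun i : Fin m => (Sum.inr i : lam ⊕ Fin m)).and
    (h1.and (h2.and (h3.and (h4.and h5))))))

theorem td_acc (gr : ∀ m, SimpleGraph (Fin m) → Prop) (k K : ℕ) :
    TDef ix C κ (fun N a _ => AccR (TDef.Adj N a) (tcl N a) gr k K) :=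
  TDef.exists' fun _ => TDef.exists' fun H => (TDef.const _).and (td_data k H)

/-! ### The machine -/

/-- A deterministic polynomial-time Turing machine decides whether a graph with more than `n0`
vertices has kernel data accepted by `gr`, and whether a graph with at most `n0` vertices has the
property `gs`. -/
theorem machine (k K n0 : ℕ) (gs gr : ∀ m, SimpleGraph (Fin m) → Prop) :
    ∃ (f : Graph → List Bool) (M : TM2ComputableInPolyTime Graph.encode id f),
      (∀ k, Finite (M.tm.Γ k)) ∧ ∀ I : Graph, ∃ b : Bool, f I = [b] ∧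
        (b = true ↔ (I.n ≤ n0 ∧ gs I.n I.G) ∨ (n0 < I.n ∧ Acc gr k K I.G)) := by
  have s1 := tlfp_step (C := fun _ _ => True) (ι := ix) ()
    (td_st (C := fun _ _ => True) (κ := ix ()) Sum.inl (Sum.inr ()))
    (fun _ _ _ _ _ => trivial)
  have hfin : TDef ix (fun _ _ => True) Empty (fun N a _ =>
      SmallCase (n0 + 1) gs N (BAdj N a) ∨
        (n0 < N ∧ AccR (TDef.Adj N a) (tcl N a) gr k K)) :=
    (TDef.of_bdef (bd_small (n0 + 1) gs) fun _ _ _ _ => Iff.rfl).or
      ((TDef.of_bdef (bd_lt_card n0) fun _ _ _ _ => Iff.rfl).and (td_acc gr k K))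
  have s2 := temit_step (ι := ix) hfin
  obtain ⟨f, M, hM, hf⟩ := machine_of_PDef (s1.seq s2)
  refine ⟨f, M, hM, fun I => ?_⟩
  obtain ⟨τ, ⟨ρ, q1, q2⟩, hfI⟩ := hf I
  have e0 : ∀ l : List ℕ, mn (init Unit I) (some ()) l = false := fun l => init_some I () l
  obtain ⟨o1, u1, c1, c2⟩ := q1 trivial e0
  have hadj : BAdj I.n (mn ρ) = adjN I := by
    funext x y
    apply propext
    rw [← init_adj (W1 := Unit) I x y]
    unfold BAdj
    rw [u1 none (by simp)]
  have htadj := adj_typed hadj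
  have hcl : tcl I.n (mn ρ) = InC I.G := by
    funext s v
    apply propext
    constructor
    · intro h
      have := c2 (fun E => InC I.G (fun i => E (.inl i)) (E (.inr ()))) ?_
        (Sum.elim s fun _ => v) h
      · exact this
      · intro M' hM' hMP E hE
        have hadj' : TDef.Adj I.n M' = I.G.Adj := by
          rw [← htadj]
          funext x y
          unfold TDef.Adj BAdj
          rw [hM' none (by simp)]
        rw [hadj'] at hE
        refine InC.of_step (MP_37c7bf_co_h77dm.Step.mono ?_ hE)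
        intro s v hsv
        exact hMP (Sum.elim s fun _ => v) hsv
    · intro h
      refine h (tcl I.n (mn ρ)) fun s v hstep => ?_
      exact c1 (Sum.elim s fun _ => v) (by rw [htadj]; exact hstep)
  obtain ⟨b, hb1, hb2⟩ := q2 trivial
  refine ⟨b, ?_, ?_⟩
  · rw [hfI, hb1, o1]
    rfl
  · rw [hb2, hadj, smallCase_iff, htadj, hcl, accR_iff, Nat.lt_succ_iff]

end Pool.Agent.Lib.MP_37c7bf_co_h26dm
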